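import Mathlib
import Pool.Agent.H778R3.Flex

/-!
# Lists of size `d + 1` on `d`-degenerate graphs are not flexible (unweighted requests)

Answer to Q2 of MP_1bc7ab_co: no, already for `d = 2`.
-/

set_option autoImplicit false

namespace Pool.Agent.Results.MP_1bc7ab_co.UnweightedRequests

/-- `G` is `d`-degenerate: every nonempty (induced) subgraph has a vertex of degree at most `d`. -/
def IsDegenerate {V : Type} (G : SimpleGraph V) (d : ℕ) : Prop :=
  ∀ S : Finset V, S.Nonempty → ∃ v ∈ S, ({u : V | u ∈ S ∧ G.Adj v u}).ncard ≤ d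

/-- `φ` is a proper colouring of `G` from the lists `L`. -/
def IsListColouring {V : Type} (G : SimpleGraph V) (L : V → Finset ℕ) (φ : V → ℕ) : Prop :=
  (∀ v, φ v ∈ L v) ∧ ∀ u v, G.Adj u v → φ u ≠ φ v

/-- The request with domain `D` and colours `r v`, `v ∈ D`, is `ε`-satisfiable: some list colouring
agrees with `r` on at least `ε |D|` vertices of `D`. -/
def IsSatisfiable {V : Type} (G : SimpleGraph V) (L : V → Finset ℕ) (D : Finset V) (r : V → ℕ)
    (ε : ℝ) : Prop :=
  ∃ φ : V → ℕ, IsListColouring G L φ ∧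
    ε * (D.card : ℝ) ≤ (({v : V | v ∈ D ∧ φ v = r v}).ncard : ℝ)

/-- Q2: for every `d` there is `ε > 0` such that every request on every finite `d`-degenerate graph
with lists of size `d + 1` is `ε`-satisfiable. -/
def Q2 : Prop :=
  ∀ d : ℕ, ∃ ε : ℝ, 0 < ε ∧
    ∀ (V : Type) [Finite V] (G : SimpleGraph V), IsDegenerate G d →
      ∀ L : V → Finset ℕ, (∀ v, (L v).card = d + 1) →
        ∀ (D : Finset V) (r : V → ℕ), (∀ v ∈ D, r v ∈ L v) → IsSatisfiable G L D r ε

/-- For every `k` there are a `2`-degenerate graph on `5k + 1` vertices, lists of size `3` and a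
request with domain of size `k` of which every list colouring satisfies at most one member; there
are list colourings. Hence Q2 has a negative answer, already for `d = 2`. -/
theorem result :
    (∀ k : ℕ, ∃ (G : SimpleGraph (Fin (5 * k + 1))) (L : Fin (5 * k + 1) → Finset ℕ)
      (D : Finset (Fin (5 * k + 1))) (r : Fin (5 * k + 1) → ℕ),
      IsDegenerate G 2 ∧ (∀ v, (L v).card = 3) ∧ D.card = k ∧ (∀ v ∈ D, r v ∈ L v) ∧
      (∃ φ, IsListColouring G L φ) ∧
      ∀ φ, IsListColouring G L φ → ({v | v ∈ D ∧ φ v = r v}).ncard ≤ 1) ∧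
    (∀ ε : ℝ, 0 < ε → ∃ (n : ℕ) (G : SimpleGraph (Fin n)) (L : Fin n → Finset ℕ)
      (D : Finset (Fin n)) (r : Fin n → ℕ), IsDegenerate G 2 ∧ (∀ v, (L v).card = 3) ∧
      (∀ v ∈ D, r v ∈ L v) ∧ ¬ IsSatisfiable G L D r ε) ∧
    ¬ Q2 := by
  classical
  have key : ∀ k : ℕ, ∃ (G : SimpleGraph (Fin (5 * k + 1))) (L : Fin (5 * k + 1) → Finset ℕ)
      (D : Finset (Fin (5 * k + 1))) (r : Fin (5 * k + 1) → ℕ),
      IsDegenerate G 2 ∧ (∀ v, (L v).card = 3) ∧ D.card = k ∧ (∀ v ∈ D, r v ∈ L v) ∧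
      (∃ φ, IsListColouring G L φ) ∧
      ∀ φ, IsListColouring G L φ → ({v | v ∈ D ∧ φ v = r v}).ncard ≤ 1 := by
    intro k
    refine ⟨Pool.Agent.H778R3.Flex.G k, fun v => Pool.Agent.H778R3.Flex.L v,
      Pool.Agent.H778R3.Flex.dom k, fun _ => 2, Pool.Agent.H778R3.Flex.degenerate k,
      fun v => Pool.Agent.H778R3.Flex.card_L v, Pool.Agent.H778R3.Flex.card_dom k, ?_, ?_, ?_⟩
    · intro v hv
      have h4 : (v : ℕ) % 5 = 4 := by
        simpa [Pool.Agent.H778R3.Flex.dom] using hv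
      simp [Pool.Agent.H778R3.Flex.L, h4]
    · -- an explicit colouring: 4, 0, 3, 2, 0 periodically
      refine ⟨fun v => if (v : ℕ) % 5 = 1 then 0 else if (v : ℕ) % 5 = 2 then 3 else
        if (v : ℕ) % 5 = 3 then 2 else if (v : ℕ) % 5 = 4 then 0 else 4, ?_, ?_⟩
      · intro v
        simp only [Pool.Agent.H778R3.Flex.L]
        split_ifs <;> simp_all
      · intro u v h
        have h5 : ∀ a b : Fin (5 * k + 1), Pool.Agent.H778R3.Flex.E a b →
            (if (a : ℕ) % 5 = 1 then 0 else if (a : ℕ) % 5 = 2 then 3 else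
              if (a : ℕ) % 5 = 3 then 2 else if (a : ℕ) % 5 = 4 then 0 else 4 : ℕ) ≠
            (if (b : ℕ) % 5 = 1 then 0 else if (b : ℕ) % 5 = 2 then 3 else
              if (b : ℕ) % 5 = 3 then 2 else if (b : ℕ) % 5 = 4 then 0 else 4 : ℕ) := by
          intro a b hab
          unfold Pool.Agent.H778R3.Flex.E at hab
          have ha : (a : ℕ) % 5 < 5 := Nat.mod_lt _ (by norm_num)
          rcases hab with hab | ⟨hab, hab'⟩ | ⟨hab, hab'⟩
          · split_ifs <;> omega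
          · split_ifs <;> omega
          · split_ifs <;> omega
        rcases h with h | h
        · exact h5 u v h
        · exact (h5 v u h).symm
    · rintro φ ⟨hL, hφ⟩
      have h1 := Pool.Agent.H778R3.Flex.card_sat φ hL hφ
      have h2 : ({v | v ∈ Pool.Agent.H778R3.Flex.dom k ∧ φ v = 2} : Set (Fin (5 * k + 1))) =
          ((Finset.univ.filter (fun v : Fin (5 * k + 1) => (v : ℕ) % 5 = 4 ∧ φ v = 2) :
            Finset (Fin (5 * k + 1))) : Set (Fin (5 * k + 1))) := by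
        ext v
        simp [Pool.Agent.H778R3.Flex.dom]
      rw [h2, Set.ncard_coe_finset]
      exact h1
  have key2 : ∀ ε : ℝ, 0 < ε → ∃ (n : ℕ) (G : SimpleGraph (Fin n)) (L : Fin n → Finset ℕ)
      (D : Finset (Fin n)) (r : Fin n → ℕ), IsDegenerate G 2 ∧ (∀ v, (L v).card = 3) ∧
      (∀ v ∈ D, r v ∈ L v) ∧ ¬ IsSatisfiable G L D r ε := by
    intro ε hε
    obtain ⟨k, hk⟩ := exists_nat_gt (1 / ε)
    have hk' : 1 < ε * k := by
      rw [div_lt_iff₀ hε] at hk
      linarith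
    obtain ⟨G, L, D, r, h1, h2, h3, h4, -, h5⟩ := key k
    refine ⟨5 * k + 1, G, L, D, r, h1, h2, h4, ?_⟩
    rintro ⟨φ, hφ, hs⟩
    have h6 : (({v | v ∈ D ∧ φ v = r v}).ncard : ℝ) ≤ 1 := by exact_mod_cast h5 φ hφ
    rw [h3] at hs
    linarith
  refine ⟨key, key2, ?_⟩
  intro h
  obtain ⟨ε, hε, h⟩ := h 2
  obtain ⟨n, G, L, D, r, h1, h2, h3, h4⟩ := key2 ε hε
  exact h4 (h (Fin n) G h1 L h2 D r h3)

end Pool.Agent.Results.MP_1bc7ab_co.UnweightedRequests
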